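import Pool.Agent.Lib.H8TW.Final

/-!
# From the splitting theorem to the linear bound for the excluded minor function

`Split C`: the splitting theorem with constant `C` (inductive form). Consequences:
`partition_std2` (standard form), `f_sum_sqrt`, `f_sum_linear`, `f_sum_eps2`, `split_conjecture`,
`split_many`.
-/

set_option linter.unusedSectionVars false

namespace Pool.Agent.H8TW

open SimpleGraph

/-- The statement of the splitting theorem (inductive form), with constant `C`. -/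
def Split (C : ℕ) : Prop :=
  ∀ (V : Type) [Fintype V] [DecidableEq V] (G : SimpleGraph V) (t w s : ℕ),
    1 ≤ t → H66TW.TW G w Finset.univ → ¬ H66TW.TW G (w - 1) Finset.univ →
    C * t * w ≤ s ^ 2 → s ≤ w →
    ∃ D : Finset V, ¬ H66TW.TW G t D ∧ ¬ H66TW.TW G (w - s - 1) Dᶜ

/-- **Splitting theorem, standard form.** -/
theorem partition_std2 {C : ℕ} (hC : Split C) (hC1 : 1 ≤ C) (V : Type) [Fintype V]
    (G : SimpleGraph V) (t s : ℕ) (ht : 1 ≤ t) (hs : s ≤ tw G)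
    (h : C * t * (tw G + 1) ≤ s ^ 2) :
    ∃ D : Set V, t ≤ tw (G.induce D) ∧ tw G - s ≤ tw (G.induce Dᶜ) := by
  classical
  have hs0 : 1 ≤ s := by
    by_contra hs0
    have : s = 0 := by omega
    rw [this] at h
    have h1 : 0 < C * t * (tw G + 1) := by positivity
    omega
  have h1 : H66TW.TW G (tw G + 1) Finset.univ := (tw_le_iff_TW G (tw G)).mp le_rfl
  have h2 : ¬ H66TW.TW G (tw G + 1 - 1) Finset.univ := by
    intro h2
    have h3 : tw G + 1 - 1 = (tw G - 1) + 1 := by omega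
    rw [h3, ← tw_le_iff_TW] at h2
    omega
  obtain ⟨D, hD₁, hD₂⟩ := hC V G t (tw G + 1) s ht h1 h2 h (by omega)
  refine ⟨(D : Set V), ?_, ?_⟩
  · by_contra hlt
    apply hD₁
    have h3 : tw (G.induce (D : Set V)) ≤ t - 1 := by omega
    rw [tw_induce_le_iff] at h3
    rwa [Nat.sub_add_cancel ht] at h3
  · by_contra hlt
    apply hD₂
    have h3 : tw (G.induce ((Dᶜ : Finset V) : Set V)) ≤ tw G - s - 1 := by
      rw [Finset.coe_compl]
      omega
    rw [tw_induce_le_iff] at h3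
    have h4 : tw G - s - 1 + 1 = tw G + 1 - s - 1 := by omega
    rwa [h4] at h3

/-- Monotonicity of the numerical condition. -/
theorem cond_mono2 {K a s s' : ℕ} (h : K * (a + s + 2) ≤ s ^ 2) (hK : 1 ≤ K) (hss' : s ≤ s') :
    K * (a + s' + 2) ≤ s' ^ 2 := by
  have hs0 : 1 ≤ s := by
    by_contra hs0
    have : s = 0 := by omega
    rw [this] at h
    have h1 : 0 < K * (a + 0 + 2) := by positivity
    omega
  have hKs : K ≤ s := by
    by_contra hlt
    push Not at hlt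
    have h1 : s * s ≤ K * s := Nat.mul_le_mul_right _ hlt.le
    have h2 : K * (a + s + 2) = K * s + K * (a + 2) := by ring
    have h3 : 0 < K * (a + 2) := by positivity
    have h4 : s ^ 2 = s * s := sq s
    omega
  obtain ⟨d, rfl⟩ := Nat.exists_eq_add_of_le hss'
  have h1 : K * (a + (s + d) + 2) = K * (a + s + 2) + K * d := by ring
  have h2 : (s + d) ^ 2 = s ^ 2 + s * d + s * d + d * d := by ring
  have h3 : K * d ≤ s * d := Nat.mul_le_mul_right _ hKs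
  have h4 : 0 ≤ d * d := Nat.zero_le _
  omega

/-- **The bound for the disjoint union, integral form.** -/
theorem minorBound_sum2 {C : ℕ} (hC : Split C) (hC1 : 1 ≤ C) {W₁ W₂ : Type*}
    {H₁ : SimpleGraph W₁} {H₂ : SimpleGraph W₂} {a b : ℕ} (h₁ : MinorBound H₁ a)
    (h₂ : MinorBound H₂ b) (s : ℕ) (hs : C * (b + 1) * (a + s + 2) ≤ s ^ 2) :
    MinorBound (H₁ ⊕g H₂) (a + s) := by
  intro V _ G hG
  by_contra hlt
  push Not at hlt
  set s' := tw G - a - 1 with hs'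
  have hcond : C * (b + 1) * (a + s' + 2) ≤ s' ^ 2 :=
    cond_mono2 hs (Nat.mul_pos hC1 (by positivity)) (by omega)
  have htw : tw G + 1 = a + s' + 2 := by omega
  rw [← htw] at hcond
  obtain ⟨D, hD₁, hD₂⟩ := partition_std2 hC hC1 V G (b + 1) s' (by omega) (by omega) hcond
  have : Fintype D := Fintype.ofFinite D
  have : Fintype (Dᶜ : Set V) := Fintype.ofFinite _
  have hm₂ : IsMinor H₂ (G.induce D) := by
    by_contra hm
    have := h₂ D (G.induce D) hm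
    omega
  have hm₁ : IsMinor H₁ (G.induce Dᶜ) := by
    by_contra hm
    have := h₁ (Dᶜ : Set V) (G.induce Dᶜ) hm
    omega
  exact hG (IsMinor.sum Dᶜ D disjoint_compl_left hm₁ hm₂)

theorem num_cond2 {C B a s : ℝ} (hC : 1 ≤ C) (hB : 1 ≤ B) (ha : 0 ≤ a)
    (hs : Real.sqrt (3 * C * B * a) ≤ s) (hs' : 3 * C * B ≤ s) :
    C * B * (a + s + 2) ≤ s ^ 2 := by
  have hCB : 1 ≤ C * B := one_le_mul_of_one_le_of_one_le hC hB
  have hs3 : 3 ≤ s := by nlinarith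
  have h0 : 0 ≤ 3 * C * B * a := by positivity
  have h1 : 3 * C * B * a ≤ s ^ 2 := by
    rw [← Real.sq_sqrt h0]
    exact pow_le_pow_left₀ (Real.sqrt_nonneg _) hs 2
  have h2 : 3 * (C * B) * s ≤ s * s := by
    have : 3 * (C * B) ≤ s := by linarith
    exact mul_le_mul_of_nonneg_right this (by linarith)
  have h3 : 3 * C * B * 3 ≤ s * s := by
    have h4 : 3 * C * B * 3 ≤ s * 3 := mul_le_mul_of_nonneg_right hs' (by norm_num)
    have h5 : s * 3 ≤ s * s := mul_le_mul_of_nonneg_left hs3 (by linarith)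
    linarith
  have h4 : s ^ 2 = s * s := sq s
  nlinarith

/-- **The square root bound**, with an explicit dependence on the constant of the splitting
theorem. -/
theorem f_sum_sqrt {C : ℕ} (hC : Split C) (hC1 : 1 ≤ C) {W₁ W₂ : Type*}
    {H₁ : SimpleGraph W₁} {H₂ : SimpleGraph W₂} (h₁ : ∃ k, MinorBound H₁ k)
    (h₂ : ∃ k, MinorBound H₂ k) :
    (∃ k, MinorBound (H₁ ⊕g H₂) k) ∧
    (f (H₁ ⊕g H₂) : ℝ) ≤ f H₁ + 4 * C * Real.sqrt ((f H₁ : ℝ) * ((f H₂ : ℝ) + 1)) +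
      4 * C * ((f H₂ : ℝ) + 1) := by
  set a := f H₁ with ha
  set b := f H₂ with hb
  have hC1' : (1 : ℝ) ≤ C := by exact_mod_cast hC1
  have hB1 : (1 : ℝ) ≤ (b : ℝ) + 1 := by
    have : (0 : ℝ) ≤ b := Nat.cast_nonneg _
    linarith
  have ha0 : (0 : ℝ) ≤ a := Nat.cast_nonneg _
  set A : ℝ := Real.sqrt (3 * C * ((b : ℝ) + 1) * a) with hA
  have hA0 : 0 ≤ A := Real.sqrt_nonneg _
  have hAle : A ≤ 4 * C * Real.sqrt ((a : ℝ) * ((b : ℝ) + 1)) := by
    rw [hA]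
    have e1 : 3 * (C : ℝ) * ((b : ℝ) + 1) * a ≤ (4 * C) ^ 2 * (a * ((b : ℝ) + 1)) := by
      have e2 : 3 * (C : ℝ) ≤ (4 * C) ^ 2 := by nlinarith
      have e3 : 0 ≤ (a : ℝ) * ((b : ℝ) + 1) := by positivity
      nlinarith
    calc Real.sqrt (3 * C * ((b : ℝ) + 1) * a) ≤ Real.sqrt ((4 * C) ^ 2 * (a * ((b : ℝ) + 1))) :=
          Real.sqrt_le_sqrt e1
      _ = 4 * C * Real.sqrt ((a : ℝ) * ((b : ℝ) + 1)) := by
          rw [Real.sqrt_mul (by positivity), Real.sqrt_sq (by positivity)]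
  set s : ℕ := ⌈A⌉₊ + 3 * C * (b + 1) with hs
  have hceil := Nat.le_ceil A
  have hceil' := Nat.ceil_lt_add_one hA0
  have hsc : (s : ℝ) = ⌈A⌉₊ + 3 * C * ((b : ℝ) + 1) := by
    rw [hs]; push_cast; ring
  have hpos : (0 : ℝ) ≤ 3 * C * ((b : ℝ) + 1) := by positivity
  have hcn : (0 : ℝ) ≤ (⌈A⌉₊ : ℝ) := Nat.cast_nonneg _
  have hcond : (C : ℝ) * ((b : ℝ) + 1) * ((a : ℝ) + s + 2) ≤ (s : ℝ) ^ 2 := by
    apply num_cond2 hC1' hB1 ha0
    · rw [hsc]; linarith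
    · rw [hsc]; linarith
  have hcond' : C * (b + 1) * (a + s + 2) ≤ s ^ 2 := by exact_mod_cast hcond
  have key := minorBound_sum2 hC hC1 (MinorBound.f h₁) (MinorBound.f h₂) s hcond'
  refine ⟨⟨_, key⟩, ?_⟩
  have hle : f (H₁ ⊕g H₂) ≤ a + s := Nat.sInf_le key
  have hle' : (f (H₁ ⊕g H₂) : ℝ) ≤ a + s := by exact_mod_cast hle
  have h1 : (1 : ℝ) ≤ C * ((b : ℝ) + 1) := one_le_mul_of_one_le_of_one_le hC1' hB1
  rw [hsc] at hle'
  nlinarith

/-- **The linear bound.** -/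
theorem f_sum_linear {C : ℕ} (hC : Split C) (hC1 : 1 ≤ C) {W₁ W₂ : Type*}
    {H₁ : SimpleGraph W₁} {H₂ : SimpleGraph W₂} (h₁ : ∃ k, MinorBound H₁ k)
    (h₂ : ∃ k, MinorBound H₂ k) :
    f (H₁ ⊕g H₂) ≤ (7 * C) * (f H₁ + f H₂ + 1) := by
  have h := (f_sum_sqrt hC hC1 h₁ h₂).2
  set a := f H₁ with ha
  set b := f H₂ with hb
  have hC1' : (1 : ℝ) ≤ C := by exact_mod_cast hC1
  have ha0 : (0 : ℝ) ≤ a := Nat.cast_nonneg _
  have hb0 : (0 : ℝ) ≤ b := Nat.cast_nonneg _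
  have hsq : Real.sqrt ((a : ℝ) * ((b : ℝ) + 1)) ≤ ((a : ℝ) + b + 1) / 2 := by
    apply Real.sqrt_le_iff.mpr
    constructor
    · positivity
    · nlinarith [sq_nonneg ((a : ℝ) - (b + 1))]
  have h2 : (f (H₁ ⊕g H₂) : ℝ) ≤ (7 * C) * ((a : ℝ) + b + 1) := by
    have h3 : 4 * (C : ℝ) * Real.sqrt ((a : ℝ) * ((b : ℝ) + 1)) ≤
        4 * C * (((a : ℝ) + b + 1) / 2) := mul_le_mul_of_nonneg_left hsq (by positivity)
    have h4 : (a : ℝ) ≤ C * a := by nlinarith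
    have h5 : 0 ≤ (C : ℝ) * a := by positivity
    have h6 : 0 ≤ (C : ℝ) * b := by positivity
    nlinarith
  exact_mod_cast h2

/-- **The linear bound**, when `f H₁ + f H₂` is positive. -/
theorem f_sum_linear' {C : ℕ} (hC : Split C) (hC1 : 1 ≤ C) {W₁ W₂ : Type*}
    {H₁ : SimpleGraph W₁} {H₂ : SimpleGraph W₂} (h₁ : ∃ k, MinorBound H₁ k)
    (h₂ : ∃ k, MinorBound H₂ k) (hpos : 1 ≤ f H₁ + f H₂) :
    f (H₁ ⊕g H₂) ≤ (14 * C) * (f H₁ + f H₂) := by
  have h := f_sum_linear hC hC1 h₁ h₂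
  have h2 : (7 * C) * (f H₁ + f H₂ + 1) ≤ (7 * C) * (2 * (f H₁ + f H₂)) :=
    Nat.mul_le_mul_left _ (by omega)
  have h3 : (7 * C) * (2 * (f H₁ + f H₂)) = (14 * C) * (f H₁ + f H₂) := by ring
  omega

/-- **The `1 + ε` bound.** -/
theorem f_sum_eps2 {C : ℕ} (hC : Split C) (hC1 : 1 ≤ C) (ε : ℝ) (hε : 0 < ε)
    {W₁ W₂ : Type*} {H₁ : SimpleGraph W₁} {H₂ : SimpleGraph W₂} (h₁ : ∃ k, MinorBound H₁ k)
    (h₂ : ∃ k, MinorBound H₂ k) :
    (f (H₁ ⊕g H₂) : ℝ) ≤ (1 + ε) * f H₁ + (4 * C + 4 * C ^ 2 / ε) * ((f H₂ : ℝ) + 1) := by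
  have h := (f_sum_sqrt hC hC1 h₁ h₂).2
  set a := f H₁ with ha
  set b := f H₂ with hb
  have ha0 : (0 : ℝ) ≤ a := Nat.cast_nonneg _
  have hb0 : (0 : ℝ) ≤ b := Nat.cast_nonneg _
  have key : 4 * (C : ℝ) * Real.sqrt ((a : ℝ) * ((b : ℝ) + 1)) ≤
      ε * a + 4 * C ^ 2 / ε * ((b : ℝ) + 1) := by
    have h1 : Real.sqrt ((a : ℝ) * ((b : ℝ) + 1)) = Real.sqrt a * Real.sqrt ((b : ℝ) + 1) :=
      Real.sqrt_mul ha0 _
    rw [h1]
    set x := Real.sqrt (a : ℝ) with hx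
    set y := Real.sqrt ((b : ℝ) + 1) with hy
    have hx2 : x ^ 2 = a := Real.sq_sqrt ha0
    have hy2 : y ^ 2 = (b : ℝ) + 1 := Real.sq_sqrt (by linarith)
    rw [← hx2, ← hy2]
    have h2 : ε * x ^ 2 + 4 * C ^ 2 / ε * y ^ 2 - 4 * C * (x * y) =
        (ε * x - 2 * C * y) ^ 2 / ε := by
      field_simp
      ring
    have h3 : 0 ≤ (ε * x - 2 * C * y) ^ 2 / ε := by positivity
    linarith
  calc (f (H₁ ⊕g H₂) : ℝ) ≤ a + 4 * C * Real.sqrt ((a : ℝ) * ((b : ℝ) + 1)) +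
        4 * C * ((b : ℝ) + 1) := h
    _ ≤ a + (ε * a + 4 * C ^ 2 / ε * ((b : ℝ) + 1)) + 4 * C * ((b : ℝ) + 1) := by linarith
    _ = (1 + ε) * a + (4 * C + 4 * C ^ 2 / ε) * ((b : ℝ) + 1) := by ring

/-! ## The splitting conjecture -/

theorem tw_of_isEmpty {V : Type*} [IsEmpty V] (G : SimpleGraph V) : tw G = 0 := by
  apply Nat.le_zero.mp
  apply Nat.sInf_le
  refine ⟨Unit, inferInstance, ⊥, fun _ => ∅, IsTree.of_subsingleton, fun _ => by simp,
    fun v => isEmptyElim v, fun v => isEmptyElim v⟩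

theorem nonempty_of_tw {V : Type*} (G : SimpleGraph V) (D : Set V)
    (h : 1 ≤ tw (G.induce D)) : D.Nonempty := by
  by_contra hD
  rw [Set.not_nonempty_iff_eq_empty] at hD
  have : IsEmpty D := by rw [hD]; infer_instance
  rw [tw_of_isEmpty] at h
  omega

theorem tw_le_card_sub {V : Type*} [Fintype V] (G : SimpleGraph V) :
    tw G ≤ Fintype.card V - 1 := by
  apply Nat.sInf_le
  refine ⟨Unit, inferInstance, ⊥, fun _ => Finset.univ, IsTree.of_subsingleton, fun _ => ?_, ?_,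
    fun u v _ => ⟨(), Finset.mem_univ _, Finset.mem_univ _⟩⟩
  · rw [Finset.card_univ]; omega
  · intro v
    have : Nonempty {n : Unit | v ∈ (Finset.univ : Finset V)} := ⟨⟨(), Finset.mem_univ _⟩⟩
    refine (connected_iff _).mpr ⟨?_, this⟩
    intro a b
    have : a = b := Subtype.ext (Subsingleton.elim _ _)
    rw [this]

/-- **The splitting conjecture**, with `ε = 1 / (18 C)`. -/
theorem split_conjecture {C : ℕ} (hC : Split C) (hC1 : 1 ≤ C) (V : Type) [Fintype V]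
    (G : SimpleGraph V) (hG : 1 ≤ tw G) :
    ∃ D : Set V, D.Nonempty ∧ Dᶜ.Nonempty ∧ ⌊(1 / (18 * C) : ℝ) * tw G⌋₊ ≤ tw (G.induce D) ∧
      ⌊(1 / (18 * C) : ℝ) * tw G⌋₊ ≤ tw (G.induce Dᶜ) := by
  have hC0 : (0 : ℝ) < C := by exact_mod_cast hC1
  set t := ⌊(1 / (18 * C) : ℝ) * tw G⌋₊ with ht
  by_cases ht0 : t = 0
  · rw [ht0]
    have hcard := tw_le_card_sub G
    have h2 : 1 < Fintype.card V := by omega
    obtain ⟨x, y, hxy⟩ := Fintype.exists_pair_of_one_lt_card h2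
    exact ⟨{x}, ⟨x, rfl⟩, ⟨y, fun h => hxy (Set.mem_singleton_iff.mp h).symm⟩, Nat.zero_le _,
      Nat.zero_le _⟩
  · have ht1 : 1 ≤ t := by omega
    have hle : (t : ℝ) ≤ (1 / (18 * C) : ℝ) * tw G := Nat.floor_le (by positivity)
    have hle' : 18 * C * t ≤ tw G := by
      have h1 : (18 * C * t : ℝ) ≤ tw G := by
        have h2 : (18 * C : ℝ) * ((1 / (18 * C) : ℝ) * tw G) = tw G := by
          field_simp
        calc (18 * C * t : ℝ) ≤ (18 * C : ℝ) * ((1 / (18 * C) : ℝ) * tw G) :=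
              mul_le_mul_of_nonneg_left hle (by positivity)
          _ = tw G := h2
      exact_mod_cast h1
    have hCt : 1 ≤ C * t := Nat.mul_pos hC1 ht1
    have hCt' : t ≤ C * t := Nat.le_mul_of_pos_left _ hC1
    have hw18 : 18 ≤ tw G := by nlinarith
    set s := tw G / 2 with hs
    have hs2 : tw G ≤ 2 * s + 1 := by omega
    have hcond : C * t * (tw G + 1) ≤ s ^ 2 := by
      have h1 : 18 * (C * t * (tw G + 1)) ≤ tw G * (tw G + 1) := by
        have : 18 * (C * t * (tw G + 1)) = (18 * C * t) * (tw G + 1) := by ring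
        rw [this]
        exact Nat.mul_le_mul_right _ hle'
      have h2 : tw G * (tw G + 1) ≤ 18 * s ^ 2 := by
        have h3 : tw G * (tw G + 1) ≤ (2 * s + 1) * (2 * s + 2) :=
          Nat.mul_le_mul hs2 (by omega)
        have h4 : 9 ≤ s := by omega
        nlinarith
      omega
    obtain ⟨D, hD₁, hD₂⟩ := partition_std2 hC hC1 V G t s ht1 (by omega) hcond
    have hD₂' : t ≤ tw (G.induce Dᶜ) := by
      have h5 : 18 * t ≤ tw G := by nlinarith
      omega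
    exact ⟨D, nonempty_of_tw G D (by omega), nonempty_of_tw G Dᶜ (by omega), hD₁, hD₂'⟩

end Pool.Agent.H8TW
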