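import Pool.Agent.Lib.H8TW.Std
import Pool.Agent.Lib.H66TW.TD

/-!
# From the partition theorem to the bound for the excluded minor function
-/

set_option linter.unusedSectionVars false

namespace Pool.Agent.H8TW

open SimpleGraph

/-! ## The inductive and the standard notion of treewidth agree -/

section Agree

variable {V : Type*} [DecidableEq V]

theorem hasTreeDecomp_induce_iff (G : SimpleGraph V) (D : Finset V) (k : ℕ) :
    HasTreeDecomp (G.induce (D : Set V)) k ↔ H66TW.TW G (k + 1) D := by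
  constructor
  · intro h
    obtain ⟨X, hX⟩ := ind_of_std G k (fun X D => H66TW.TD G (k + 1) D X)
      (fun X hX => H66TW.TD.leaf X hX)
      (fun X₁ D₁ X₂ D₂ h₁ h₂ hi₁ hi₂ hE => by
        refine H66TW.TD.glue D₁ X₁ D₂ X₂ h₁ h₂ (Finset.subset_inter hi₁ hi₂) ?_
        intro u hu v hv
        rw [Finset.mem_sdiff] at hu hv
        exact hE u hu.1 hu.2 v hv.1 hv.2) D h
    exact ⟨X, hX⟩
  · rintro ⟨X, hX⟩
    apply hasTreeDecomp_of_stdD G k X D
    induction hX with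
    | leaf β h => exact stdD_leaf G _ β h
    | glue D₁ β₁ D₂ β₂ _ _ hi hE ih₁ ih₂ =>
      apply stdD_glue G _ β₁ D₁ β₂ D₂ ih₁ ih₂ (hi.trans Finset.inter_subset_left)
        (hi.trans Finset.inter_subset_right)
      intro u hu hu' v hv hv'
      exact hE u (Finset.mem_sdiff.mpr ⟨hu, hu'⟩) v (Finset.mem_sdiff.mpr ⟨hv, hv'⟩)

theorem tw_induce_le_iff [Fintype V] (G : SimpleGraph V) (D : Finset V) (k : ℕ) :
    tw (G.induce (D : Set V)) ≤ k ↔ H66TW.TW G (k + 1) D := by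
  rw [tw_le_iff, hasTreeDecomp_induce_iff]

theorem tw_le_iff_TW [Fintype V] (G : SimpleGraph V) (k : ℕ) :
    tw G ≤ k ↔ H66TW.TW G (k + 1) Finset.univ := by
  rw [tw_le_iff, ← hasTreeDecomp_induce_iff, Finset.coe_univ, hasTreeDecomp_induce_univ]

end Agree

/-! ## Minors of a disjoint union -/

section Minor

variable {V W₁ W₂ W : Type*}

theorem connected_image {G : SimpleGraph V} {S : Set V} {B : Set S}
    (h : ((G.induce S).induce B).Connected) : (G.induce (Subtype.val '' B)).Connected := by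
  let f : (G.induce S).induce B →g G.induce (Subtype.val '' B) :=
    ⟨fun x => ⟨x.1.1, ⟨x.1, x.2, rfl⟩⟩, fun {a b} hab => by simpa using hab⟩
  apply h.map f
  rintro ⟨_, ⟨x, hx, rfl⟩⟩
  exact ⟨⟨x, hx⟩, rfl⟩

/-- If `S` contains a model of `H₁` and the complement of `S` a model of `H₂`, then the disjoint
union of `H₁` and `H₂` is a minor. -/
theorem IsMinor.sum {H₁ : SimpleGraph W₁} {H₂ : SimpleGraph W₂} {G : SimpleGraph V}
    (S S' : Set V) (hSS' : Disjoint S S') (h₁ : IsMinor H₁ (G.induce S))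
    (h₂ : IsMinor H₂ (G.induce S')) : IsMinor (H₁ ⊕g H₂) G := by
  obtain ⟨B₁, hc₁, hd₁, he₁⟩ := h₁
  obtain ⟨B₂, hc₂, hd₂, he₂⟩ := h₂
  have hdis : ∀ w w', Disjoint (Subtype.val '' B₁ w) (Subtype.val '' B₂ w') := by
    intro w w'
    apply hSS'.mono
    · rintro _ ⟨x, _, rfl⟩; exact x.2
    · rintro _ ⟨x, _, rfl⟩; exact x.2
  refine ⟨Sum.elim (fun w => Subtype.val '' B₁ w) (fun w => Subtype.val '' B₂ w), ?_, ?_, ?_⟩
  · rintro (w | w)
    · exact connected_image (hc₁ w)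
    · exact connected_image (hc₂ w)
  · rintro (w | w) (w' | w') hww'
    · exact (Set.disjoint_image_iff Subtype.val_injective).mpr
        (hd₁ w w' fun h => hww' (congrArg _ h))
    · exact hdis w w'
    · exact (hdis w' w).symm
    · exact (Set.disjoint_image_iff Subtype.val_injective).mpr
        (hd₂ w w' fun h => hww' (congrArg _ h))
  · rintro (w | w) (w' | w') hadj
    · obtain ⟨x, hx, y, hy, hxy⟩ := he₁ w w' (by simpa using hadj)
      exact ⟨x.1, ⟨x, hx, rfl⟩, y.1, ⟨y, hy, rfl⟩, by simpa using hxy⟩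
    · simp at hadj
    · simp at hadj
    · obtain ⟨x, hx, y, hy, hxy⟩ := he₂ w w' (by simpa using hadj)
      exact ⟨x.1, ⟨x, hx, rfl⟩, y.1, ⟨y, hy, rfl⟩, by simpa using hxy⟩

end Minor

/-! ## The excluded minor function -/

/-- Every finite graph without a minor isomorphic to `H` has treewidth at most `k`. -/
def MinorBound {W : Type*} (H : SimpleGraph W) (k : ℕ) : Prop :=
  ∀ (V : Type) [Fintype V] (G : SimpleGraph V), ¬ IsMinor H G → tw G ≤ k

/-- `f H`: the least integer such that every finite graph without a minor isomorphic to `H` has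
treewidth at most `f H`. -/
noncomputable def f {W : Type*} (H : SimpleGraph W) : ℕ := sInf {k | MinorBound H k}

theorem MinorBound.f {W : Type*} {H : SimpleGraph W} (h : ∃ k, MinorBound H k) :
    MinorBound H (f H) := Nat.sInf_mem h

/-- The statement of the partition theorem (inductive form), with constant `C`. -/
def PartitionTD (C : ℕ) : Prop :=
  ∀ (V : Type) [Fintype V] [DecidableEq V] (G : SimpleGraph V) (t w s : ℕ),
    1 ≤ t → H66TW.TW G w Finset.univ → ¬ H66TW.TW G (w - 1) Finset.univ → s ≤ w →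
    C * t ^ 8 * w ^ 3 ≤ s ^ 4 →
    ∃ D : Finset V, ¬ H66TW.TW G t D ∧ ¬ H66TW.TW G (w - s - 1) Dᶜ

/-- **Partition theorem, standard form.** -/
theorem partition_std {C : ℕ} (hC : PartitionTD C) (hC1 : 1 ≤ C) (V : Type) [Fintype V]
    (G : SimpleGraph V) (t s : ℕ) (ht : 1 ≤ t) (hs : s ≤ tw G)
    (h : C * t ^ 8 * (tw G + 1) ^ 3 ≤ s ^ 4) :
    ∃ D : Set V, t ≤ tw (G.induce D) ∧ tw G - s ≤ tw (G.induce Dᶜ) := by
  classical
  have hs0 : 1 ≤ s := by
    by_contra hs0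
    have : s = 0 := by omega
    rw [this] at h
    have h1 : 0 < C * t ^ 8 * (tw G + 1) ^ 3 := by positivity
    omega
  have h1 : H66TW.TW G (tw G + 1) Finset.univ := (tw_le_iff_TW G (tw G)).mp le_rfl
  have h2 : ¬ H66TW.TW G (tw G + 1 - 1) Finset.univ := by
    intro h2
    have h3 : tw G + 1 - 1 = (tw G - 1) + 1 := by omega
    rw [h3, ← tw_le_iff_TW] at h2
    omega
  obtain ⟨D, hD₁, hD₂⟩ := hC V G t (tw G + 1) s ht h1 h2 (by omega) h
  refine ⟨(D : Set V), ?_, ?_⟩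
  · by_contra hlt
    apply hD₁
    have h3 : tw (G.induce (D : Set V)) ≤ t - 1 := by omega
    rw [tw_induce_le_iff] at h3
    rwa [Nat.sub_add_cancel ht] at h3
  · by_contra hlt
    apply hD₂
    have h3 : tw (G.induce ((Dᶜ : Finset V) : Set V)) ≤ tw G - s - 1 := by
      rw [Finset.coe_compl]
      omega
    rw [tw_induce_le_iff] at h3
    have h4 : tw G - s - 1 + 1 = tw G + 1 - s - 1 := by omega
    rwa [h4] at h3

/-- Monotonicity of the numerical condition. -/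
theorem cond_mono {K a s s' : ℕ} (h : K * (a + s + 2) ^ 3 ≤ s ^ 4) (hK : 1 ≤ K) (hss' : s ≤ s') :
    K * (a + s' + 2) ^ 3 ≤ s' ^ 4 := by
  have hs0 : 1 ≤ s := by
    by_contra hs0
    have : s = 0 := by omega
    rw [this] at h
    have h1 : 0 < K * (a + 0 + 2) ^ 3 := by positivity
    omega
  have h1 : (a + s' + 2) * s ≤ (a + s + 2) * s' := by
    have h1 : (a + 2) * s ≤ (a + 2) * s' := Nat.mul_le_mul_left _ hss'
    nlinarith
  have h2 : ((a + s' + 2) * s) ^ 3 ≤ ((a + s + 2) * s') ^ 3 := Nat.pow_le_pow_left h1 3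
  have h3 : (K * (a + s' + 2) ^ 3) * s ^ 4 ≤ s' ^ 4 * s ^ 4 := by
    calc (K * (a + s' + 2) ^ 3) * s ^ 4 = K * s * ((a + s' + 2) * s) ^ 3 := by ring
      _ ≤ K * s * ((a + s + 2) * s') ^ 3 := Nat.mul_le_mul_left _ h2
      _ = (K * (a + s + 2) ^ 3) * (s * s' ^ 3) := by ring
      _ ≤ s ^ 4 * (s * s' ^ 3) := Nat.mul_le_mul_right _ h
      _ ≤ s ^ 4 * (s' * s' ^ 3) := by gcongr
      _ = s' ^ 4 * s ^ 4 := by ring
  exact Nat.le_of_mul_le_mul_right h3 (by positivity)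

/-- **The bound for the disjoint union, integral form.** -/
theorem minorBound_sum {C : ℕ} (hC : PartitionTD C) (hC1 : 1 ≤ C) {W₁ W₂ : Type*}
    {H₁ : SimpleGraph W₁} {H₂ : SimpleGraph W₂} {a b : ℕ} (h₁ : MinorBound H₁ a)
    (h₂ : MinorBound H₂ b) (s : ℕ) (hs : C * (b + 1) ^ 8 * (a + s + 2) ^ 3 ≤ s ^ 4) :
    MinorBound (H₁ ⊕g H₂) (a + s) := by
  intro V _ G hG
  by_contra hlt
  push Not at hlt
  set s' := tw G - a - 1 with hs'
  have hcond : C * (b + 1) ^ 8 * (a + s' + 2) ^ 3 ≤ s' ^ 4 :=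
    cond_mono hs (Nat.mul_pos hC1 (by positivity)) (by omega)
  have htw : tw G + 1 = a + s' + 2 := by omega
  rw [← htw] at hcond
  obtain ⟨D, hD₁, hD₂⟩ := partition_std hC hC1 V G (b + 1) s' (by omega) (by omega) hcond
  have : Fintype D := Fintype.ofFinite D
  have : Fintype (Dᶜ : Set V) := Fintype.ofFinite _
  have hm₂ : IsMinor H₂ (G.induce D) := by
    by_contra hm
    have := h₂ D (G.induce D) hm
    omega
  have hm₁ : IsMinor H₁ (G.induce Dᶜ) := by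
    by_contra hm
    have := h₁ (Dᶜ : Set V) (G.induce Dᶜ) hm
    omega
  exact hG (IsMinor.sum Dᶜ D disjoint_compl_left hm₁ hm₂)

theorem cube_sum_le {x y z : ℝ} (hx : 0 ≤ x) (hy : 0 ≤ y) (hz : 0 ≤ z) :
    (x + y + z) ^ 3 ≤ 9 * (x ^ 3 + y ^ 3 + z ^ 3) := by
  have h1 : (x + y) ^ 3 ≤ 4 * (x ^ 3 + y ^ 3) := by
    nlinarith [mul_nonneg (add_nonneg hx hy) (sq_nonneg (x - y))]
  have h2 : 0 ≤ (x + z) * (x - z) ^ 2 := mul_nonneg (add_nonneg hx hz) (sq_nonneg _)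
  have h3 : 0 ≤ (y + z) * (y - z) ^ 2 := mul_nonneg (add_nonneg hy hz) (sq_nonneg _)
  have h4 : 0 ≤ (x + y) * (x - y) ^ 2 := mul_nonneg (add_nonneg hx hy) (sq_nonneg _)
  have h5 : 0 ≤ x * (y - z) ^ 2 := mul_nonneg hx (sq_nonneg _)
  have h6 : 0 ≤ y * (x - z) ^ 2 := mul_nonneg hy (sq_nonneg _)
  have h7 : 0 ≤ z * (x - y) ^ 2 := mul_nonneg hz (sq_nonneg _)
  nlinarith

theorem num_cond {C A B a s : ℝ} (hC : 1 ≤ C) (hA : 0 ≤ A) (hB : 1 ≤ B) (ha : 0 ≤ a)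
    (hA4 : A ^ 4 = B * a ^ 3) (hs : 36 * C * A + 36 * C * B ≤ s) :
    C * B * (a + s + 2) ^ 3 ≤ s ^ 4 := by
  have hCA : 0 ≤ C * A := by positivity
  have hCB : 1 ≤ C * B := one_le_mul_of_one_le_of_one_le hC hB
  have hs36 : 36 ≤ s := by linarith
  have hs0 : 0 ≤ s := by linarith
  have h1 : (a + s + 2) ^ 3 ≤ 9 * (a ^ 3 + s ^ 3 + 8) := by
    have := cube_sum_le ha hs0 (by norm_num : (0 : ℝ) ≤ 2)
    linarith
  have hCA' : 36 * (C * A) ≤ s := by linarith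
  have hCB' : 36 * (C * B) ≤ s := by linarith
  have t1 : C * B * (9 * a ^ 3) ≤ s ^ 4 / 4 := by
    have e1 : C * B * (9 * a ^ 3) = 9 * C * A ^ 4 := by rw [hA4]; ring
    rw [e1]
    have e2 : (36 * (C * A)) ^ 4 ≤ s ^ 4 := pow_le_pow_left₀ (by positivity) hCA' 4
    have e3 : 36 * C * A ^ 4 ≤ (36 * (C * A)) ^ 4 := by
      have e4 : (36 * (C * A)) ^ 4 = (36 ^ 4 * C ^ 4) * A ^ 4 := by ring
      rw [e4]
      apply mul_le_mul_of_nonneg_right _ (by positivity)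
      have e5 : C ≤ C ^ 4 := le_self_pow₀ hC (by norm_num)
      have e6 : 0 ≤ C ^ 4 := by positivity
      linarith
    linarith
  have t2 : C * B * (9 * s ^ 3) ≤ s ^ 4 / 4 := by
    have e1 : 36 * (C * B) * s ^ 3 ≤ s * s ^ 3 :=
      mul_le_mul_of_nonneg_right hCB' (by positivity)
    have e2 : s * s ^ 3 = s ^ 4 := by ring
    linarith
  have t3 : C * B * (9 * 8 : ℝ) ≤ s ^ 4 / 2 := by
    have e1 : (36 : ℝ) ^ 3 ≤ s ^ 3 := pow_le_pow_left₀ (by norm_num) hs36 3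
    have e2 : s * 36 ^ 3 ≤ s * s ^ 3 := mul_le_mul_of_nonneg_left e1 hs0
    have e3 : s * s ^ 3 = s ^ 4 := by ring
    linarith
  calc C * B * (a + s + 2) ^ 3 ≤ C * B * (9 * (a ^ 3 + s ^ 3 + 8)) :=
        mul_le_mul_of_nonneg_left h1 (by positivity)
    _ = C * B * (9 * a ^ 3) + C * B * (9 * s ^ 3) + C * B * (9 * 8) := by ring
    _ ≤ s ^ 4 := by linarith

/-- **The almost additive bound**, with an explicit dependence on the constant of the partition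
theorem. -/
theorem f_sum_le {C : ℕ} (hC : PartitionTD C) (hC1 : 1 ≤ C) {W₁ W₂ : Type*}
    {H₁ : SimpleGraph W₁} {H₂ : SimpleGraph W₂} (h₁ : ∃ k, MinorBound H₁ k)
    (h₂ : ∃ k, MinorBound H₂ k) :
    (∃ k, MinorBound (H₁ ⊕g H₂) k) ∧
    (f (H₁ ⊕g H₂) : ℝ) ≤ f H₁ + 37 * C * ((f H₂ : ℝ) + 1) ^ 2 * (f H₁ : ℝ) ^ (3 / 4 : ℝ) +
      37 * C * ((f H₂ : ℝ) + 1) ^ 8 := by
  set a := f H₁ with ha
  set b := f H₂ with hb
  have hC1' : (1 : ℝ) ≤ C := by exact_mod_cast hC1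
  set A : ℝ := ((b : ℝ) + 1) ^ 2 * (a : ℝ) ^ (3 / 4 : ℝ) with hA
  set B : ℝ := ((b : ℝ) + 1) ^ 8 with hB
  have hA0 : 0 ≤ A := by positivity
  have hB1 : 1 ≤ B := by
    apply one_le_pow₀
    have : (0 : ℝ) ≤ b := Nat.cast_nonneg _
    linarith
  have hA4 : A ^ 4 = B * (a : ℝ) ^ 3 := by
    rw [hA, mul_pow, ← pow_mul, hB]
    congr 1
    rw [← Real.rpow_natCast, ← Real.rpow_mul (Nat.cast_nonneg _)]
    norm_num
  set s : ℕ := ⌈36 * C * A⌉₊ + 36 * C * (b + 1) ^ 8 with hs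
  have hsl : 36 * C * A + 36 * C * B ≤ s := by
    rw [hs]
    push_cast
    have := Nat.le_ceil (36 * C * A)
    rw [hB]
    linarith
  have hsu : (s : ℝ) ≤ 37 * C * A + 37 * C * B := by
    rw [hs]
    push_cast
    have := Nat.ceil_lt_add_one (a := 36 * C * A) (by positivity)
    have h1 : (1 : ℝ) ≤ C * B := one_le_mul_of_one_le_of_one_le hC1' hB1
    have h2 : 0 ≤ C * A := by positivity
    rw [← hB]
    nlinarith
  have hcond : (C : ℝ) * B * ((a : ℝ) + s + 2) ^ 3 ≤ (s : ℝ) ^ 4 :=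
    num_cond hC1' hA0 hB1 (Nat.cast_nonneg _) hA4 hsl
  have hcond' : C * (b + 1) ^ 8 * (a + s + 2) ^ 3 ≤ s ^ 4 := by
    rw [hB] at hcond
    exact_mod_cast hcond
  have key := minorBound_sum hC hC1 (MinorBound.f h₁) (MinorBound.f h₂) s hcond'
  refine ⟨⟨_, key⟩, ?_⟩
  have hle : f (H₁ ⊕g H₂) ≤ a + s := Nat.sInf_le key
  have hle' : (f (H₁ ⊕g H₂) : ℝ) ≤ a + s := by exact_mod_cast hle
  have e1 : 37 * C * ((b : ℝ) + 1) ^ 2 * (a : ℝ) ^ (3 / 4 : ℝ) = 37 * C * A := by rw [hA]; ring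
  rw [e1]
  linarith

/-- **The `1 + ε` bound.** -/
theorem f_sum_le_eps {C : ℕ} (hC : PartitionTD C) (hC1 : 1 ≤ C) (ε : ℝ) (hε : 0 < ε)
    {W₁ W₂ : Type*} {H₁ : SimpleGraph W₁} {H₂ : SimpleGraph W₂} (h₁ : ∃ k, MinorBound H₁ k)
    (h₂ : ∃ k, MinorBound H₂ k) :
    (f (H₁ ⊕g H₂) : ℝ) ≤ (1 + ε) * f H₁ +
      (37 * C + (37 * C) ^ 4 / ε ^ 3) * ((f H₂ : ℝ) + 1) ^ 8 := by
  have h := (f_sum_le hC hC1 h₁ h₂).2
  set a := f H₁ with ha
  set b := f H₂ with hb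
  have ha0 : (0 : ℝ) ≤ a := Nat.cast_nonneg _
  set x : ℝ := (a : ℝ) ^ (1 / 4 : ℝ) with hx
  have hx0 : 0 ≤ x := by positivity
  have hx4 : x ^ 4 = a := by
    rw [hx, ← Real.rpow_natCast, ← Real.rpow_mul ha0]
    norm_num
  have hx3 : x ^ 3 = (a : ℝ) ^ (3 / 4 : ℝ) := by
    rw [hx, ← Real.rpow_natCast, ← Real.rpow_mul ha0]
    norm_num
  rw [← hx3] at h
  set K : ℝ := 37 * C with hK
  have hK0 : 0 ≤ K := by positivity
  set T : ℝ := (b : ℝ) + 1 with hT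
  have hT0 : 0 ≤ T := by positivity
  have key : K * T ^ 2 * x ^ 3 ≤ ε * a + K ^ 4 / ε ^ 3 * T ^ 8 := by
    by_cases hc : K * T ^ 2 ≤ ε * x
    · have h1 : K * T ^ 2 * x ^ 3 ≤ ε * x * x ^ 3 := mul_le_mul_of_nonneg_right hc (by positivity)
      have h2 : ε * x * x ^ 3 = ε * a := by rw [← hx4]; ring
      have h3 : 0 ≤ K ^ 4 / ε ^ 3 * T ^ 8 := by positivity
      linarith
    · push Not at hc
      have h1 : x ≤ K * T ^ 2 / ε := by
        rw [le_div_iff₀ hε]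
        linarith
      have h2 : x ^ 3 ≤ (K * T ^ 2 / ε) ^ 3 := pow_le_pow_left₀ hx0 h1 3
      have h3 : K * T ^ 2 * x ^ 3 ≤ K * T ^ 2 * (K * T ^ 2 / ε) ^ 3 :=
        mul_le_mul_of_nonneg_left h2 (by positivity)
      have h4 : K * T ^ 2 * (K * T ^ 2 / ε) ^ 3 = K ^ 4 / ε ^ 3 * T ^ 8 := by
        field_simp
      have h5 : 0 ≤ ε * a := by positivity
      linarith
  calc (f (H₁ ⊕g H₂) : ℝ) ≤ a + K * T ^ 2 * x ^ 3 + K * T ^ 8 := h
    _ ≤ a + (ε * a + K ^ 4 / ε ^ 3 * T ^ 8) + K * T ^ 8 := by linarith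
    _ = (1 + ε) * a + (K + K ^ 4 / ε ^ 3) * T ^ 8 := by ring

end Pool.Agent.H8TW
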