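import Mathlib

/-!
# Standard tree decompositions versus inductively generated ones

* `HasTreeDecomp G k` : the graph `G` has a tree decomposition of width at most `k`;
* `tw G` : the treewidth of `G`;
* `IsMinor H G` : `H` is a minor of `G` (branch sets);
* `std_of_ind`, `ind_of_std` : comparison with the inductively generated decompositions.
-/

set_option linter.unusedSectionVars false

namespace Pool.Agent.H8TW

open SimpleGraph Relation

/-- `G` has a tree decomposition of width at most `k`: a finite tree `T` with bags `X n`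
(`n` a node of `T`) of cardinality at most `k + 1`, such that for every vertex `v` the set of the
nodes whose bag contains `v` induces a (nonempty) connected subgraph of `T`, and every edge of
`G` lies in a bag. -/
def HasTreeDecomp {V : Type*} (G : SimpleGraph V) (k : ℕ) : Prop :=
  ∃ (N : Type) (_ : Fintype N) (T : SimpleGraph N) (X : N → Finset V),
    T.IsTree ∧
    (∀ n, (X n).card ≤ k + 1) ∧
    (∀ v, (T.induce {n | v ∈ X n}).Connected) ∧
    (∀ u v, G.Adj u v → ∃ n, u ∈ X n ∧ v ∈ X n)

/-- The treewidth of `G`: the least width of a tree decomposition of `G` (natural numbers; the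
graph without vertices gets the value `0`). -/
noncomputable def tw {V : Type*} (G : SimpleGraph V) : ℕ := sInf {k | HasTreeDecomp G k}

/-- `H` is a minor of `G`: there are pairwise disjoint connected branch sets in `G`, one for
each vertex of `H`, such that for every edge of `H` there is an edge of `G` between the
corresponding branch sets. -/
def IsMinor {W V : Type*} (H : SimpleGraph W) (G : SimpleGraph V) : Prop :=
  ∃ B : W → Set V, (∀ w, (G.induce (B w)).Connected) ∧
    (∀ w w', w ≠ w' → Disjoint (B w) (B w')) ∧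
    (∀ w w', H.Adj w w' → ∃ x ∈ B w, ∃ y ∈ B w', G.Adj x y)

/-! ## Connectedness of traces -/

section Trace

variable {N : Type*} {T : SimpleGraph N}

/-- The relation: adjacent nodes, both in `S`. -/
def TStep (T : SimpleGraph N) (S : N → Prop) (a b : N) : Prop := T.Adj a b ∧ S a ∧ S b

/-- `S` is a connected set of nodes (possibly empty). -/
def TConn (T : SimpleGraph N) (S : N → Prop) : Prop :=
  ∀ a b, S a → S b → ReflTransGen (TStep T S) a b

lemma TStep.symm {S : N → Prop} {a b : N} (h : TStep T S a b) : TStep T S b a :=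
  ⟨h.1.symm, h.2.2, h.2.1⟩

lemma rtg_symm {S : N → Prop} {a b : N} (h : ReflTransGen (TStep T S) a b) :
    ReflTransGen (TStep T S) b a := by
  induction h with
  | refl => exact ReflTransGen.refl
  | tail _ h2 ih => exact ReflTransGen.head h2.symm ih

lemma rtg_of_reachable {S : Set N} {a b : S} (h : (T.induce S).Reachable a b) :
    ReflTransGen (TStep T (fun n => n ∈ S)) a.1 b.1 := by
  obtain ⟨p⟩ := h
  induction p with
  | nil => exact ReflTransGen.refl
  | cons hadj _ ih =>
    exact ReflTransGen.head ⟨by simpa using hadj, Subtype.property _, Subtype.property _⟩ ih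

lemma reachable_of_rtg {S : Set N} {a b : N} (ha : a ∈ S)
    (h : ReflTransGen (TStep T (fun n => n ∈ S)) a b) :
    ∃ hb : b ∈ S, (T.induce S).Reachable ⟨a, ha⟩ ⟨b, hb⟩ := by
  induction h with
  | refl => exact ⟨ha, Reachable.refl _⟩
  | tail _ h2 ih =>
    obtain ⟨hb, hr⟩ := ih
    refine ⟨h2.2.2, hr.trans ?_⟩
    apply Adj.reachable
    simpa using h2.1

lemma tconn_iff {S : Set N} : TConn T (fun n => n ∈ S) ↔ (T.induce S).Preconnected := by
  constructor
  · intro h a b
    obtain ⟨_, hr⟩ := reachable_of_rtg a.2 (h a.1 b.1 a.2 b.2)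
    exact hr
  · intro h a b ha hb
    exact rtg_of_reachable (h ⟨a, ha⟩ ⟨b, hb⟩)

/-- the first step of a nontrivial walk in a set, when the start has a single neighbour -/
lemma mem_of_leaf {S : N → Prop} {l p : N} (hp : ∀ n, T.Adj l n → n = p) {m : N} (hm : m ≠ l)
    (h : ReflTransGen (TStep T S) l m) : S p := by
  rcases ReflTransGen.cases_head h with h1 | ⟨c, h1, _⟩
  · exact absurd h1.symm hm
  · rw [← hp c h1.1]
    exact h1.2.2

end Trace

/-! ## From standard decompositions to inductive ones -/

section ToInd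

variable {V : Type*} [DecidableEq V]

/-- One merging step, and the induction on the number of nodes. -/
theorem merge_all (G : SimpleGraph V) (P : Finset V → Finset V → Prop)
    (hglue : ∀ X₁ D₁ X₂ D₂ : Finset V, P X₁ D₁ → P X₂ D₂ →
      D₁ ∩ D₂ ⊆ X₁ → D₁ ∩ D₂ ⊆ X₂ →
      (∀ u ∈ D₁, u ∉ D₂ → ∀ v ∈ D₂, v ∉ D₁ → ¬ G.Adj u v) → P X₁ (D₁ ∪ D₂)) :
    ∀ (c : ℕ) (N : Type) [Fintype N] (T : SimpleGraph N) (X D : N → Finset V),
      Fintype.card N = c → T.IsTree → (∀ n, P (X n) (D n)) →
      (∀ n m, n ≠ m → D n ∩ D m ⊆ X n) →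
      (∀ n m u v, u ∈ D n → v ∈ D m → G.Adj u v → ∃ k, u ∈ D k ∧ v ∈ D k) →
      (∀ v, TConn T (fun n => v ∈ D n)) →
      ∀ r, P (X r) (Finset.univ.biUnion D) := by
  classical
  intro c
  induction c with
  | zero =>
    intro N _ T X D hN hT _ _ _ _ r
    exact absurd hN (Fintype.card_pos_iff.mpr ⟨r⟩).ne'
  | succ c ih =>
    intro N _ T X D hN hT hP hint hE hconn r
    by_cases hsub : ∀ n : N, n = r
    · have : Finset.univ.biUnion D = D r := by
        ext v
        simp only [Finset.mem_biUnion, Finset.mem_univ, true_and]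
        constructor
        · rintro ⟨n, hn⟩
          rwa [hsub n] at hn
        · intro h; exact ⟨r, h⟩
      rw [this]
      exact hP r
    · push Not at hsub
      obtain ⟨m0, hm0⟩ := hsub
      have : Nontrivial N := ⟨⟨m0, r, hm0⟩⟩
      obtain ⟨l, hlr, hdeg⟩ : ∃ l, l ≠ r ∧ T.degree l = 1 := by
        obtain ⟨u, v, huv, hu, hv⟩ := hT.exists_ne_and_degree_eq_one
        by_cases h : u = r
        · exact ⟨v, fun h' => huv (h.trans h'.symm), hv⟩
        · exact ⟨u, h, hu⟩
      obtain ⟨p, hlp, hp⟩ := degree_eq_one_iff_existsUnique_adj.mp hdeg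
      have hpl : p ≠ l := hlp.ne'
      -- the new tree
      set N' := {n : N // n ∈ ({l}ᶜ : Set N)} with hN'
      set T' : SimpleGraph N' := T.induce {l}ᶜ with hT'
      have hT'tree : T'.IsTree :=
        ⟨hT.connected.induce_compl_singleton_of_degree_eq_one hdeg, hT.isAcyclic.induce _⟩
      let X' : N' → Finset V := fun n => X n.1
      let D' : N' → Finset V := fun n => if n.1 = p then D p ∪ D l else D n.1
      have hsubD : ∀ n : N', D n.1 ⊆ D' n := by
        intro n
        simp only [D']
        split_ifs with h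
        · rw [h]; exact Finset.subset_union_left
        · exact subset_rfl
      have hDl : ∀ n : N', n.1 = p → D l ⊆ D' n := by
        intro n h
        simp only [D', h, if_true]
        exact Finset.subset_union_right
      let p' : N' := ⟨p, by simpa using hpl⟩
      -- facts about the leaf
      have hleaf : ∀ m, m ≠ l → ∀ v, v ∈ D l → v ∈ D m → v ∈ D p := by
        intro m hm v hvl hvm
        exact mem_of_leaf (T := T) (S := fun n => v ∈ D n) (l := l) (p := p) hp hm
          (hconn v l m hvl hvm)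
      have hcard : Fintype.card N' = c := by
        have h1 : Fintype.card N' = Fintype.card N - 1 := by
          have := Fintype.card_subtype_compl (fun n => n = l)
          rw [Fintype.card_subtype_eq] at this
          rw [← this]
          exact Fintype.card_congr (Equiv.refl _)
        omega
      have key := ih N' T' X' D' hcard hT'tree ?_ ?_ ?_ ?_ ⟨r, by simpa using hlr.symm⟩
      · have hU : Finset.univ.biUnion D = Finset.univ.biUnion D' := by
          ext v
          simp only [Finset.mem_biUnion, Finset.mem_univ, true_and]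
          constructor
          · rintro ⟨n, hn⟩
            by_cases h : n = l
            · exact ⟨p', hDl p' rfl (h ▸ hn)⟩
            · exact ⟨⟨n, by simpa using h⟩, hsubD _ hn⟩
          · rintro ⟨n, hn⟩
            simp only [D'] at hn
            split_ifs at hn with h
            · rcases Finset.mem_union.mp hn with h1 | h1
              · exact ⟨p, h1⟩
              · exact ⟨l, h1⟩
            · exact ⟨n.1, hn⟩
        rw [hU]
        exact key
      · -- P
        intro n
        simp only [D', X']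
        split_ifs with h
        · rw [h]
          apply hglue _ _ _ _ (hP p) (hP l) (hint p l hpl)
          · rw [Finset.inter_comm]; exact hint l p hpl.symm
          · intro u hu hul v hv hvp hadj
            obtain ⟨k, huk, hvk⟩ := hE p l u v hu hv hadj
            have hkl : k ≠ l := by
              rintro rfl; exact hul huk
            exact hvp (hleaf k hkl v hv hvk)
        · exact hP n.1
      · -- intersections
        intro n m hnm v hv
        have hnm' : n.1 ≠ m.1 := fun h => hnm (Subtype.ext h)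
        have hml : m.1 ≠ l := fun h => m.2 h
        have hnl : n.1 ≠ l := fun h => n.2 h
        rw [Finset.mem_inter] at hv
        obtain ⟨hvn, hvm⟩ := hv
        have hn' : v ∈ D n.1 ∨ (n.1 = p ∧ v ∈ D l) := by
          simp only [D'] at hvn
          split_ifs at hvn with h
          · rcases Finset.mem_union.mp hvn with h1 | h1
            · left; rw [h]; exact h1
            · right; exact ⟨h, h1⟩
          · left; exact hvn
        have hm' : v ∈ D m.1 ∨ (m.1 = p ∧ v ∈ D l) := by
          simp only [D'] at hvm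
          split_ifs at hvm with h
          · rcases Finset.mem_union.mp hvm with h1 | h1
            · left; rw [h]; exact h1
            · right; exact ⟨h, h1⟩
          · left; exact hvm
        rcases hn' with h1 | ⟨h1, h2⟩
        · rcases hm' with h3 | ⟨h3, h4⟩
          · exact hint _ _ hnm' (Finset.mem_inter.mpr ⟨h1, h3⟩)
          · exact hint n.1 l hnl (Finset.mem_inter.mpr ⟨h1, h4⟩)
        · rcases hm' with h3 | ⟨h3, _⟩
          · have := hleaf m.1 hml v h2 h3
            rw [← h1] at this
            exact hint _ _ hnm' (Finset.mem_inter.mpr ⟨this, h3⟩)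
          · exact absurd (h1.trans h3.symm) hnm'
      · -- edges
        intro n m u v hu hv hadj
        have h0 : ∀ (n : N') (w : V), w ∈ D' n → ∃ k, w ∈ D k := by
          intro n w hw
          simp only [D'] at hw
          split_ifs at hw with h
          · rcases Finset.mem_union.mp hw with h1 | h1
            · exact ⟨p, h1⟩
            · exact ⟨l, h1⟩
          · exact ⟨n.1, hw⟩
        obtain ⟨n', hn'⟩ := h0 n u hu
        obtain ⟨m', hm'⟩ := h0 m v hv
        obtain ⟨k, huk, hvk⟩ := hE n' m' u v hn' hm' hadj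
        by_cases hk : k = l
        · subst hk
          exact ⟨p', hDl p' rfl huk, hDl p' rfl hvk⟩
        · exact ⟨⟨k, by simpa using hk⟩, hsubD _ huk, hsubD _ hvk⟩
      · -- traces
        intro v
        let f : N → N' := fun n => if h : n = l then p' else ⟨n, by simpa using h⟩
        have hf : ∀ n : N', f n.1 = n := by
          intro n
          have : n.1 ≠ l := fun h => n.2 h
          simp only [f]
          rw [dif_neg this]
        have hfl : f l = p' := by simp [f]
        have hfD : ∀ a, v ∈ D a → v ∈ D' (f a) := by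
          intro a ha
          by_cases h : a = l
          · rw [h, hfl]
            exact hDl p' rfl (h ▸ ha)
          · simp only [f, h, dif_neg, not_false_eq_true]
            exact hsubD ⟨a, _⟩ ha
        have hstep : ∀ a b, TStep T (fun n => v ∈ D n) a b →
            ReflTransGen (TStep T' (fun n => v ∈ D' n)) (f a) (f b) := by
          intro a b ⟨hab, ha, hb⟩
          by_cases h1 : a = l
          · have : b = p := hp b (h1 ▸ hab)
            rw [h1, this, hfl, show p = p'.1 from rfl, hf p']
          · by_cases h2 : b = l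
            · have : a = p := hp a (h2 ▸ hab.symm)
              rw [h2, this, hfl, show p = p'.1 from rfl, hf p']
            · apply ReflTransGen.single
              refine ⟨?_, hfD a ha, hfD b hb⟩
              simp only [f, h1, h2, dif_neg, not_false_eq_true, T']
              simpa using hab
        have hlift : ∀ a b, ReflTransGen (TStep T (fun n => v ∈ D n)) a b →
            ReflTransGen (TStep T' (fun n => v ∈ D' n)) (f a) (f b) := by
          intro a b h
          induction h with
          | refl => exact ReflTransGen.refl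
          | tail _ h2 ih2 => exact ih2.trans (hstep _ _ h2)
        have hsrc : ∀ n : N', v ∈ D' n → ∃ a, f a = n ∧ v ∈ D a := by
          intro n hn
          simp only [D'] at hn
          split_ifs at hn with h
          · rcases Finset.mem_union.mp hn with h1 | h1
            · exact ⟨n.1, hf n, h ▸ h1⟩
            · exact ⟨l, by rw [hfl]; exact Subtype.ext h.symm, h1⟩
          · exact ⟨n.1, hf n, hn⟩
        intro a b ha hb
        obtain ⟨a', ha', ha''⟩ := hsrc a ha
        obtain ⟨b', hb', hb''⟩ := hsrc b hb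
        rw [← ha', ← hb']
        exact hlift _ _ (hconn v a' b' ha'' hb'')

/-- **From standard to inductive.**  Let `P X D` be a property of pairs (root bag, vertex set)
which holds for single bags and is closed under glueing along root bags.  If the subgraph of `G`
induced on `D` has a standard tree decomposition of width at most `k`, then `P X D` holds for
some root bag `X`. -/
theorem ind_of_std (G : SimpleGraph V) (k : ℕ) (P : Finset V → Finset V → Prop)
    (hleaf : ∀ X : Finset V, X.card ≤ k + 1 → P X X)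
    (hglue : ∀ X₁ D₁ X₂ D₂ : Finset V, P X₁ D₁ → P X₂ D₂ →
      D₁ ∩ D₂ ⊆ X₁ → D₁ ∩ D₂ ⊆ X₂ →
      (∀ u ∈ D₁, u ∉ D₂ → ∀ v ∈ D₂, v ∉ D₁ → ¬ G.Adj u v) → P X₁ (D₁ ∪ D₂))
    (D : Finset V) (h : HasTreeDecomp (G.induce (D : Set V)) k) : ∃ X, P X D := by
  classical
  obtain ⟨N, _, T, X, hT, hw, htr, hedge⟩ := h
  let B : N → Finset V := fun n => (X n).map (Function.Embedding.subtype _)
  have hB : ∀ n (v : V), v ∈ B n ↔ ∃ h : v ∈ D, (⟨v, h⟩ : (D : Set V)) ∈ X n := by
    intro n v
    simp only [B, Finset.mem_map, Function.Embedding.subtype_apply]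
    constructor
    · rintro ⟨a, ha, rfl⟩
      exact ⟨a.2, ha⟩
    · rintro ⟨h1, h2⟩
      exact ⟨⟨v, h1⟩, h2, rfl⟩
  have hBc : ∀ n, (B n).card ≤ k + 1 := by
    intro n
    rw [Finset.card_map]
    exact hw n
  obtain ⟨r⟩ := hT.connected.nonempty
  refine ⟨B r, ?_⟩
  have key := merge_all G P hglue (Fintype.card N) N T B B rfl hT (fun n => hleaf _ (hBc n))
    (fun n m _ v hv => (Finset.mem_inter.mp hv).1) ?_ ?_ r
  · have hU : Finset.univ.biUnion B = D := by
      ext v
      simp only [Finset.mem_biUnion, Finset.mem_univ, true_and, hB]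
      constructor
      · rintro ⟨n, h, _⟩; exact h
      · intro h
        obtain ⟨⟨n, hn⟩⟩ := (htr ⟨v, h⟩).nonempty
        exact ⟨n, h, hn⟩
    rw [hU] at key
    exact key
  · intro n m u v hu hv hadj
    obtain ⟨hu1, _⟩ := (hB n u).mp hu
    obtain ⟨hv1, _⟩ := (hB m v).mp hv
    obtain ⟨j, hj1, hj2⟩ := hedge ⟨u, hu1⟩ ⟨v, hv1⟩ (by simpa using hadj)
    exact ⟨j, (hB j u).mpr ⟨hu1, hj1⟩, (hB j v).mpr ⟨hv1, hj2⟩⟩
  · intro v
    by_cases hv : v ∈ D
    · have h1 := (tconn_iff (T := T)).mpr (htr ⟨v, hv⟩).preconnected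
      have h2 : (fun n => v ∈ B n) = (fun n => n ∈ {n | (⟨v, hv⟩ : (D : Set V)) ∈ X n}) := by
        funext n
        rw [eq_iff_iff, hB]
        constructor
        · rintro ⟨_, h⟩; exact h
        · intro h; exact ⟨hv, h⟩
      rw [h2]
      exact h1
    · intro a b ha _
      exact absurd ((hB a v).mp ha).1 hv

end ToInd

/-! ## From inductive decompositions to standard ones -/

section ToStd

variable {V : Type*} [DecidableEq V]

/-- The subgraph of `G` induced on `D` has a tree decomposition with a node of bag `X`, all of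
whose bags have at most `b` elements. -/
def StdD (G : SimpleGraph V) (b : ℕ) (X D : Finset V) : Prop :=
  ∃ (N : Type) (_ : Fintype N) (T : SimpleGraph N) (B : N → Finset V) (r : N),
    T.IsTree ∧ B r = X ∧ (∀ n, (B n).card ≤ b) ∧ (∀ v, v ∈ D ↔ ∃ n, v ∈ B n) ∧
    (∀ v, TConn T (fun n => v ∈ B n)) ∧
    (∀ u v, u ∈ D → v ∈ D → G.Adj u v → ∃ n, u ∈ B n ∧ v ∈ B n)

theorem stdD_leaf (G : SimpleGraph V) (b : ℕ) (X : Finset V) (hX : X.card ≤ b) :
    StdD G b X X := by
  refine ⟨Unit, inferInstance, ⊥, fun _ => X, (), IsTree.of_subsingleton, rfl, fun _ => hX,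
    fun v => ⟨fun h => ⟨(), h⟩, fun ⟨_, h⟩ => h⟩, ?_, fun u v hu hv _ => ⟨(), hu, hv⟩⟩
  intro v a b _ _
  exact ReflTransGen.refl

/-- The disjoint union of two acyclic graphs is acyclic. -/
theorem isAcyclic_sum {N₁ N₂ : Type*} {T₁ : SimpleGraph N₁} {T₂ : SimpleGraph N₂}
    (h₁ : T₁.IsAcyclic) (h₂ : T₂.IsAcyclic) : (T₁ ⊕g T₂).IsAcyclic := by
  rw [isAcyclic_iff_forall_adj_isBridge] at *
  rintro (a | a) (b | b) hab
  · have hab' : T₁.Adj a b := by simpa using hab
    have := h₁ hab'
    rw [isBridge_iff] at *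
    intro hr
    apply this
    obtain ⟨p⟩ := hr
    have key : ∀ (x y : N₁ ⊕ N₂)
        (p : ((T₁ ⊕g T₂).deleteEdges {s(Sum.inl a, Sum.inl b)}).Walk x y) (c : N₁),
        x = Sum.inl c → ∀ d, y = Sum.inl d → (T₁.deleteEdges {s(a, b)}).Reachable c d := by
      intro x y p
      induction p with
      | nil =>
        intro c hc d hd
        rw [hc] at hd
        rw [Sum.inl_injective hd]
      | @cons u v w hadj _ ih =>
        rintro c rfl d hd
        rcases v with v | v
        · refine Reachable.trans ?_ (ih v rfl d hd)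
          apply Adj.reachable
          rw [deleteEdges_adj] at *
          refine ⟨by simpa using hadj.1, ?_⟩
          intro hmem
          apply hadj.2
          simp only [Set.mem_singleton_iff, Sym2.eq_iff, Sum.inl.injEq] at *
          exact hmem
        · rw [deleteEdges_adj] at hadj
          simp at hadj
    exact key _ _ p a rfl b rfl
  · simp at hab
  · simp at hab
  · have hab' : T₂.Adj a b := by simpa using hab
    have := h₂ hab'
    rw [isBridge_iff] at *
    intro hr
    apply this
    obtain ⟨p⟩ := hr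
    have key : ∀ (x y : N₁ ⊕ N₂)
        (p : ((T₁ ⊕g T₂).deleteEdges {s(Sum.inr a, Sum.inr b)}).Walk x y) (c : N₂),
        x = Sum.inr c → ∀ d, y = Sum.inr d → (T₂.deleteEdges {s(a, b)}).Reachable c d := by
      intro x y p
      induction p with
      | nil =>
        intro c hc d hd
        rw [hc] at hd
        rw [Sum.inr_injective hd]
      | @cons u v w hadj _ ih =>
        rintro c rfl d hd
        rcases v with v | v
        · rw [deleteEdges_adj] at hadj
          simp at hadj
        · refine Reachable.trans ?_ (ih v rfl d hd)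
          apply Adj.reachable
          rw [deleteEdges_adj] at *
          refine ⟨by simpa using hadj.1, ?_⟩
          intro hmem
          apply hadj.2
          simp only [Set.mem_singleton_iff, Sym2.eq_iff, Sum.inr.injEq] at *
          exact hmem
    exact key _ _ p a rfl b rfl

/-- Two trees joined by an edge form a tree. -/
theorem isTree_join {N₁ N₂ : Type*} {T₁ : SimpleGraph N₁} {T₂ : SimpleGraph N₂}
    (h₁ : T₁.IsTree) (h₂ : T₂.IsTree) (r₁ : N₁) (r₂ : N₂) :
    ((T₁ ⊕g T₂) ⊔ edge (Sum.inl r₁) (Sum.inr r₂)).IsTree := by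
  have hnr : ∀ (a : N₁) (z : N₁ ⊕ N₂), (T₁ ⊕g T₂).Reachable (Sum.inl a) z →
      ∃ a', z = Sum.inl a' := by
    rintro a z ⟨p⟩
    have : ∀ (x y : N₁ ⊕ N₂) (p : (T₁ ⊕g T₂).Walk x y), (∃ a', x = Sum.inl a') →
        ∃ a', y = Sum.inl a' := by
      intro x y p
      induction p with
      | nil => exact id
      | @cons u v w hadj _ ih =>
        rintro ⟨a', rfl⟩
        apply ih
        rcases v with v | v
        · exact ⟨v, rfl⟩
        · simp at hadj
    exact this _ _ p ⟨a, rfl⟩
  refine ⟨?_, ?_⟩
  · -- connected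
    rw [connected_iff_exists_forall_reachable]
    refine ⟨Sum.inl r₁, ?_⟩
    have hl : ∀ a b, T₁.Reachable a b →
        ((T₁ ⊕g T₂) ⊔ edge (Sum.inl r₁) (Sum.inr r₂)).Reachable (Sum.inl a) (Sum.inl b) := by
      intro a b h
      exact (h.map (Embedding.sumInl (G := T₁) (H := T₂)).toHom).mono le_sup_left
    have hr : ∀ a b, T₂.Reachable a b →
        ((T₁ ⊕g T₂) ⊔ edge (Sum.inl r₁) (Sum.inr r₂)).Reachable (Sum.inr a) (Sum.inr b) := by
      intro a b h
      exact (h.map (Embedding.sumInr (G := T₁) (H := T₂)).toHom).mono le_sup_left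
    rintro (b | b)
    · exact hl _ _ (h₁.connected.preconnected _ _)
    · refine Reachable.trans ?_ (hr _ _ (h₂.connected.preconnected r₂ b))
      apply Adj.reachable
      rw [sup_adj]
      right
      rw [edge_adj]
      simp
  · -- acyclic
    apply IsAcyclic.sup_edge_of_not_reachable
    · intro h
      obtain ⟨a, ha⟩ := hnr _ _ h
      simp at ha
    · exact isAcyclic_sum h₁.isAcyclic h₂.isAcyclic

theorem stdD_glue (G : SimpleGraph V) (b : ℕ) (X₁ D₁ X₂ D₂ : Finset V)
    (h₁ : StdD G b X₁ D₁) (h₂ : StdD G b X₂ D₂) (hi₁ : D₁ ∩ D₂ ⊆ X₁) (hi₂ : D₁ ∩ D₂ ⊆ X₂)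
    (hE : ∀ u ∈ D₁, u ∉ D₂ → ∀ v ∈ D₂, v ∉ D₁ → ¬ G.Adj u v) : StdD G b X₁ (D₁ ∪ D₂) := by
  obtain ⟨N₁, _, T₁, B₁, r₁, hT₁, hr₁, hc₁, hu₁, ht₁, he₁⟩ := h₁
  obtain ⟨N₂, _, T₂, B₂, r₂, hT₂, hr₂, hc₂, hu₂, ht₂, he₂⟩ := h₂
  refine ⟨N₁ ⊕ N₂, inferInstance, (T₁ ⊕g T₂) ⊔ edge (Sum.inl r₁) (Sum.inr r₂),
    Sum.elim B₁ B₂, Sum.inl r₁, isTree_join hT₁ hT₂ r₁ r₂, hr₁, ?_, ?_, ?_, ?_⟩
  · rintro (n | n)
    · exact hc₁ n
    · exact hc₂ n
  · intro v
    rw [Finset.mem_union, hu₁, hu₂]
    constructor
    · rintro (⟨n, hn⟩ | ⟨n, hn⟩)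
      · exact ⟨Sum.inl n, hn⟩
      · exact ⟨Sum.inr n, hn⟩
    · rintro ⟨n | n, hn⟩
      · exact Or.inl ⟨n, hn⟩
      · exact Or.inr ⟨n, hn⟩
  · intro v
    have hl : ∀ a c, ReflTransGen (TStep T₁ (fun n => v ∈ B₁ n)) a c →
        ReflTransGen (TStep ((T₁ ⊕g T₂) ⊔ edge (Sum.inl r₁) (Sum.inr r₂))
          (fun n => v ∈ Sum.elim B₁ B₂ n)) (Sum.inl a) (Sum.inl c) := by
      intro a c h
      induction h with
      | refl => exact ReflTransGen.refl
      | tail _ h2 ih =>
        refine ih.tail ⟨?_, h2.2.1, h2.2.2⟩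
        rw [sup_adj]
        left
        simpa using h2.1
    have hr : ∀ a c, ReflTransGen (TStep T₂ (fun n => v ∈ B₂ n)) a c →
        ReflTransGen (TStep ((T₁ ⊕g T₂) ⊔ edge (Sum.inl r₁) (Sum.inr r₂))
          (fun n => v ∈ Sum.elim B₁ B₂ n)) (Sum.inr a) (Sum.inr c) := by
      intro a c h
      induction h with
      | refl => exact ReflTransGen.refl
      | tail _ h2 ih =>
        refine ih.tail ⟨?_, h2.2.1, h2.2.2⟩
        rw [sup_adj]
        left
        simpa using h2.1
    have hcross : ∀ a c, v ∈ B₁ a → v ∈ B₂ c →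
        ReflTransGen (TStep ((T₁ ⊕g T₂) ⊔ edge (Sum.inl r₁) (Sum.inr r₂))
          (fun n => v ∈ Sum.elim B₁ B₂ n)) (Sum.inl a) (Sum.inr c) := by
      intro a c ha hc
      have hv : v ∈ D₁ ∩ D₂ := Finset.mem_inter.mpr ⟨(hu₁ v).mpr ⟨a, ha⟩, (hu₂ v).mpr ⟨c, hc⟩⟩
      have hv₁ : v ∈ B₁ r₁ := by rw [hr₁]; exact hi₁ hv
      have hv₂ : v ∈ B₂ r₂ := by rw [hr₂]; exact hi₂ hv
      have hstep : TStep ((T₁ ⊕g T₂) ⊔ edge (Sum.inl r₁) (Sum.inr r₂))
          (fun n => v ∈ Sum.elim B₁ B₂ n) (Sum.inl r₁) (Sum.inr r₂) := by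
        refine ⟨?_, hv₁, hv₂⟩
        rw [sup_adj]
        right
        rw [edge_adj]
        simp
      exact ((hl a r₁ (ht₁ v a r₁ ha hv₁)).tail hstep).trans (hr r₂ c (ht₂ v r₂ c hv₂ hc))
    rintro (a | a) (c | c) ha hc
    · exact hl a c (ht₁ v a c ha hc)
    · exact hcross a c ha hc
    · exact rtg_symm (hcross c a hc ha)
    · exact hr a c (ht₂ v a c ha hc)
  · intro u v hu hv hadj
    have h1 : u ∈ D₁ → v ∈ D₁ → ∃ n, u ∈ Sum.elim B₁ B₂ n ∧ v ∈ Sum.elim B₁ B₂ n := by
      intro h1 h2
      obtain ⟨n, hn⟩ := he₁ u v h1 h2 hadj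
      exact ⟨Sum.inl n, hn⟩
    have h2 : u ∈ D₂ → v ∈ D₂ → ∃ n, u ∈ Sum.elim B₁ B₂ n ∧ v ∈ Sum.elim B₁ B₂ n := by
      intro h1 h2
      obtain ⟨n, hn⟩ := he₂ u v h1 h2 hadj
      exact ⟨Sum.inr n, hn⟩
    rcases Finset.mem_union.mp hu with hu' | hu'
    · by_cases hv1 : v ∈ D₁
      · exact h1 hu' hv1
      · have hv2 : v ∈ D₂ := (Finset.mem_union.mp hv).resolve_left hv1
        by_cases hu2 : u ∈ D₂
        · exact h2 hu2 hv2
        · exact absurd hadj (hE u hu' hu2 v hv2 hv1)
    · by_cases hv2 : v ∈ D₂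
      · exact h2 hu' hv2
      · have hv1 : v ∈ D₁ := (Finset.mem_union.mp hv).resolve_right hv2
        by_cases hu1 : u ∈ D₁
        · exact h1 hu1 hv1
        · exact absurd hadj.symm (hE v hv1 hv2 u hu' hu1)

/-- `StdD` gives a standard tree decomposition of the induced subgraph. -/
theorem hasTreeDecomp_of_stdD (G : SimpleGraph V) (k : ℕ) (X D : Finset V)
    (h : StdD G (k + 1) X D) : HasTreeDecomp (G.induce (D : Set V)) k := by
  classical
  obtain ⟨N, _, T, B, r, hT, _, hc, hu, ht, he⟩ := h
  have hm : ∀ n (v : (D : Set V)), v ∈ (B n).preimage (Subtype.val : ↥(D : Set V) → V)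
      Subtype.val_injective.injOn ↔ v.1 ∈ B n := fun n v => Finset.mem_preimage
  refine ⟨N, inferInstance, T, fun n => (B n).preimage (Subtype.val : ↥(D : Set V) → V)
      Subtype.val_injective.injOn, hT, fun n => ?_, ?_, ?_⟩
  · refine le_trans ?_ (hc n)
    apply Finset.card_le_card_of_injOn Subtype.val
    · intro v hv
      exact (hm n v).mp hv
    · exact Subtype.val_injective.injOn
  · intro v
    obtain ⟨n, hn⟩ := (hu v.1).mp v.2
    have h1 : (T.induce {n | v.1 ∈ B n}).Preconnected := tconn_iff.mp (ht v.1)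
    have h2 : {n | v ∈ (B n).preimage (Subtype.val : ↥(D : Set V) → V)
      Subtype.val_injective.injOn} = {n | v.1 ∈ B n} := by
      ext n
      exact hm n v
    rw [h2]
    exact (connected_iff _).mpr ⟨h1, ⟨⟨n, hn⟩⟩⟩
  · intro u v hadj
    obtain ⟨n, hn⟩ := he u.1 v.1 u.2 v.2 (by simpa using hadj)
    exact ⟨n, (hm n u).mpr hn.1, (hm n v).mpr hn.2⟩

end ToStd

/-! ## Basic properties of the treewidth -/

section Basic

variable {V V' : Type*}

theorem HasTreeDecomp.mono {G : SimpleGraph V} {k l : ℕ} (h : HasTreeDecomp G k) (hkl : k ≤ l) :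
    HasTreeDecomp G l := by
  obtain ⟨N, i, T, X, hT, hc, ht, he⟩ := h
  exact ⟨N, i, T, X, hT, fun n => (hc n).trans (by omega), ht, he⟩

theorem HasTreeDecomp.comap {G : SimpleGraph V} {G' : SimpleGraph V'} {k : ℕ} (f : G →g G')
    (hf : Function.Injective f) (h : HasTreeDecomp G' k) : HasTreeDecomp G k := by
  classical
  obtain ⟨N, i, T, X, hT, hc, ht, he⟩ := h
  have hm : ∀ n (v : V), v ∈ (X n).preimage f hf.injOn ↔ f v ∈ X n :=
    fun n v => Finset.mem_preimage
  refine ⟨N, i, T, fun n => (X n).preimage f hf.injOn, hT, fun n => ?_, ?_, ?_⟩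
  · refine le_trans ?_ (hc n)
    apply Finset.card_le_card_of_injOn f
    · intro v hv
      exact (hm n v).mp hv
    · exact hf.injOn
  · intro v
    have h2 : {n | v ∈ (X n).preimage f hf.injOn} = {n | f v ∈ X n} := by
      ext n
      exact hm n v
    rw [h2]
    exact ht (f v)
  · intro u v hadj
    obtain ⟨n, hn⟩ := he (f u) (f v) (f.map_adj hadj)
    exact ⟨n, (hm n u).mpr hn.1, (hm n v).mpr hn.2⟩

theorem hasTreeDecomp_card [Fintype V] (G : SimpleGraph V) :
    HasTreeDecomp G (Fintype.card V) := by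
  refine ⟨Unit, inferInstance, ⊥, fun _ => Finset.univ, IsTree.of_subsingleton, fun _ => ?_, ?_,
    fun u v _ => ⟨(), Finset.mem_univ _, Finset.mem_univ _⟩⟩
  · rw [Finset.card_univ]; omega
  · intro v
    have : Nonempty {n : Unit | v ∈ (Finset.univ : Finset V)} := ⟨⟨(), Finset.mem_univ _⟩⟩
    refine (connected_iff _).mpr ⟨?_, this⟩
    intro a b
    have : a = b := Subtype.ext (Subsingleton.elim _ _)
    rw [this]

theorem tw_le_iff [Fintype V] {G : SimpleGraph V} {k : ℕ} : tw G ≤ k ↔ HasTreeDecomp G k := by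
  constructor
  · intro h
    have hne : {k | HasTreeDecomp G k}.Nonempty := ⟨_, hasTreeDecomp_card G⟩
    exact (Nat.sInf_mem hne : HasTreeDecomp G (tw G)).mono h
  · intro h
    exact Nat.sInf_le h

theorem hasTreeDecomp_induce_univ {G : SimpleGraph V} {k : ℕ} :
    HasTreeDecomp (G.induce Set.univ) k ↔ HasTreeDecomp G k := by
  constructor
  · intro h
    refine h.comap (⟨fun v => ⟨v, Set.mem_univ v⟩, fun {a b} hab => ?_⟩) ?_
    · simpa using hab
    · intro a b hab
      exact congrArg Subtype.val hab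
  · intro h
    exact h.comap (Embedding.induce (G := G) Set.univ).toHom
      (Embedding.induce (G := G) Set.univ).injective

end Basic

end Pool.Agent.H8TW
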